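import Pool.Agent.Lib.MP_0ee9ff_an.Orbit5

namespace Pool.Agent.FS.SimOrb

open Filter Topology ContinuousLinearMap Pool.Agent.Lib.MP_0ee9ff_an
open scoped ENNReal InnerProductSpace

variable {H : Type*} [NormedAddCommGroup H] [InnerProductSpace ℂ H] [CompleteSpace H]

/-- `S T S⁻¹`. -/
noncomputable def simOp (S : H ≃L[ℂ] H) (T : H →L[ℂ] H) : H →L[ℂ] H :=
  (S : H →L[ℂ] H) ∘L T ∘L (S.symm : H →L[ℂ] H)

omit [CompleteSpace H] in
theorem simOp_apply (S : H ≃L[ℂ] H) (T : H →L[ℂ] H) (f : H) :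
    simOp S T f = S (T (S.symm f)) := rfl

omit [CompleteSpace H] in
theorem pad {ι : Type*} [Countable ι] (g : ι → H) (hg : Summable fun i => ‖g i‖ ^ 2) :
    ∃ g' : ℕ → H, Summable (fun n => ‖g' n‖ ^ 2) ∧
      ∀ f, ∑' n, ‖⟪g' n, f⟫_ℂ‖ ^ 2 = ∑' i, ‖⟪g i, f⟫_ℂ‖ ^ 2 := by
  obtain ⟨j, hj⟩ := Countable.exists_injective_nat ι
  have h0 : ∀ n, n ∉ Set.range j → Function.extend j g 0 n = 0 := fun n hn => by
    rw [Function.extend_apply' _ _ _ (by simpa using hn)]; rfl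
  refine ⟨Function.extend j g 0, ?_, fun f => ?_⟩
  · refine (hj.summable_iff (f := fun n => ‖Function.extend j g 0 n‖ ^ 2) ?_).1 ?_
    · intro n hn; simp [h0 n hn]
    · simpa [Function.comp_def, hj.extend_apply] using hg
  · rw [← hj.tsum_eq (f := fun n => ‖⟪Function.extend j g 0 n, f⟫_ℂ‖ ^ 2)]
    · simp [hj.extend_apply]
    · intro n hn
      by_contra h
      exact hn (by simp [h0 n h])

theorem dom_of (M N R : H →L[ℂ] H) (c K : ℝ) (g : ℕ → H)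
    (hg : Summable fun n => ‖g n‖ ^ 2)
    (h : ∀ f, ‖M f‖ ^ 2 ≤ c * ‖adjoint N f‖ ^ 2 + K ^ 2 * ∑' n, ‖⟪g n, R f⟫_ℂ‖ ^ 2) :
    ∃ (c : ℝ) (g : ℕ → H), Summable (fun n => ‖g n‖ ^ 2) ∧
      ∀ f, ‖M f‖ ^ 2 ≤ c * ‖adjoint N f‖ ^ 2 + ∑' n, ‖⟪g n, f⟫_ℂ‖ ^ 2 := by
  refine ⟨c, fun n => (K : ℂ) • adjoint R (g n), ?_, fun f => ?_⟩
  · refine Summable.of_nonneg_of_le (fun n => by positivity) (fun n => ?_)
      (hg.mul_left ((|K| * ‖adjoint R‖) ^ 2))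
    rw [← mul_pow, norm_smul, Complex.norm_real, Real.norm_eq_abs, mul_assoc]
    gcongr
    exact le_opNorm _ _
  · refine (h f).trans_eq ?_
    congr 1
    rw [← tsum_mul_left]
    refine tsum_congr fun n => ?_
    rw [inner_smul_left, adjoint_inner_left, norm_mul, mul_pow]
    simp

theorem hs_vectors [TopologicalSpace.SeparableSpace H] (T : H →L[ℂ] H) {ι : Type*}
    (b : HilbertBasis ι ℂ H) (h : Summable fun i => ‖T (b i)‖ ^ 2) :
    ∃ g : ℕ → H, Summable (fun n => ‖g n‖ ^ 2) ∧ ∀ f, ‖T f‖ ^ 2 = ∑' n, ‖⟪g n, f⟫_ℂ‖ ^ 2 := by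
  have : Countable ι := countable_of_orthonormal b.orthonormal
  have h1 : Summable fun p : ι × ι => ‖⟪b p.2, T (b p.1)⟫_ℂ‖ ^ 2 := by
    rw [summable_prod_of_nonneg (fun p => by positivity)]
    exact ⟨fun i => (parseval_real b (T (b i))).summable,
      by simpa only [fun i => (parseval_real b (T (b i))).tsum_eq] using h⟩
  have h2 : Summable fun i => ‖adjoint T (b i)‖ ^ 2 := by
    refine h1.prod_symm.prod.congr fun i => ?_
    rw [← (parseval_real b (adjoint T (b i))).tsum_eq]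
    refine tsum_congr fun k => ?_
    simp only [Prod.swap_prod_mk]
    rw [adjoint_inner_right, norm_inner_symm]
  obtain ⟨g, hg, hf⟩ := pad _ h2
  refine ⟨g, hg, fun f => ?_⟩
  rw [hf, ← (parseval_real b (T f)).tsum_eq]
  exact tsum_congr fun i => by rw [adjoint_inner_left]

theorem dom_of_hs [TopologicalSpace.SeparableSpace H] (T : H →L[ℂ] H) {ι : Type*}
    (b : HilbertBasis ι ℂ H) (h : Summable fun i => ‖T (b i)‖ ^ 2) (S : H ≃L[ℂ] H) :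
    Dom (simOp S T) := by
  obtain ⟨g, hg, hf⟩ := hs_vectors T b h
  refine dom_of _ _ (S.symm : H →L[ℂ] H) 0 ‖(S : H →L[ℂ] H)‖ g hg fun f => ?_
  rw [zero_mul, zero_add, ← hf, ← mul_pow, simOp_apply]
  gcongr
  exact (S : H →L[ℂ] H).le_opNorm _

omit [CompleteSpace H] in
theorem exists_gap (A : H →L[ℂ] H)
    (h : ¬ ∃ f : ℕ → H, Orthonormal ℂ f ∧ Tendsto (fun n => A (f n)) atTop (𝓝 0)) :
    ∃ (k : ℕ) (F : Finset H), ∀ f, (∀ x ∈ F, ⟪x, f⟫_ℂ = 0) → ‖f‖ ≤ (k + 1) * ‖A f‖ := by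
  classical
  by_contra hc
  push Not at hc
  apply h
  obtain ⟨u, hu, hr⟩ := exists_seq_of_forall_finset_exists
    (fun p : H × ℕ => ‖p.1‖ = 1 ∧ ‖A p.1‖ ≤ 1 / ((p.2 : ℝ) + 1))
    (fun p q => ⟪p.1, q.1⟫_ℂ = 0 ∧ p.2 < q.2) (fun s _ => by
      obtain ⟨f, hf, hlt⟩ := hc (s.sup Prod.snd + 1) (s.image Prod.fst)
      have hk : (0 : ℝ) < ((s.sup Prod.snd + 1 : ℕ) : ℝ) + 1 := by positivity
      have hf0 : 0 < ‖f‖ := lt_of_le_of_lt (by positivity) hlt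
      refine ⟨(((‖f‖⁻¹ : ℝ) : ℂ) • f, s.sup Prod.snd + 1), ⟨?_, ?_⟩, fun x hx => ⟨?_, ?_⟩⟩
      · simp only [norm_smul, Complex.norm_real, norm_inv, norm_norm]
        exact inv_mul_cancel₀ hf0.ne'
      · simp only [map_smul, norm_smul, Complex.norm_real, norm_inv, norm_norm]
        rw [le_div_iff₀ hk, mul_assoc, inv_mul_le_iff₀ hf0]
        linarith
      · simp only [inner_smul_right, hf x.1 (Finset.mem_image_of_mem _ hx), mul_zero]
      · exact Nat.lt_succ_of_le (Finset.le_sup (f := Prod.snd) hx))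
  refine ⟨fun n => (u n).1, ⟨fun n => (hu n).1, fun m n hmn => ?_⟩, ?_⟩
  · rcases lt_or_gt_of_ne hmn with h1 | h1
    · exact (hr m n h1).1
    · exact inner_eq_zero_symm.1 (hr n m h1).1
  · have hs : StrictMono fun n => (u n).2 := fun m n hmn => (hr m n hmn).2
    refine squeeze_zero_norm (fun n => (hu n).2.trans ?_) tendsto_one_div_add_atTop_nhds_zero_nat
    have : (n : ℝ) ≤ (u n).2 := by exact_mod_cast hs.id_le n
    gcongr

omit [CompleteSpace H] in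
theorem gap_vectors (A : H →L[ℂ] H)
    (h : ¬ ∃ f : ℕ → H, Orthonormal ℂ f ∧ Tendsto (fun n => A (f n)) atTop (𝓝 0)) :
    ∃ (c K : ℝ) (g : ℕ → H), 0 ≤ c ∧ Summable (fun n => ‖g n‖ ^ 2) ∧
      ∀ f, ‖f‖ ^ 2 ≤ c * ‖A f‖ ^ 2 + K ^ 2 * ∑' n, ‖⟪g n, f⟫_ℂ‖ ^ 2 := by
  obtain ⟨k, F, hF⟩ := exists_gap A h
  let V : Submodule ℂ H := Submodule.span ℂ (F : Set H)
  have : FiniteDimensional ℂ V := FiniteDimensional.span_finset ℂ F
  let v := stdOrthonormalBasis ℂ V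
  obtain ⟨g, hg, hgf⟩ := pad (fun i => (v i : H)) Summable.of_finite
  refine ⟨2 * (k + 1) ^ 2, 2 * (1 + (k + 1) * ‖A‖), g, by positivity, hg, fun f => ?_⟩
  have hq : f - V.starProjection f ∈ Vᗮ := V.sub_starProjection_mem_orthogonal f
  have h1 := hF (f - V.starProjection f) fun x hx =>
    Submodule.inner_right_of_mem_orthogonal (Submodule.subset_span hx) hq
  have h2 : ∑' n, ‖⟪g n, f⟫_ℂ‖ ^ 2 = ‖V.starProjection f‖ ^ 2 := by
    have h3 := v.sum_sq_norm_inner_right ⟨V.starProjection f, V.starProjection_apply_mem f⟩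
    rw [hgf, tsum_fintype]
    refine Eq.trans (Finset.sum_congr rfl fun i _ => ?_) h3
    have h4 := Submodule.inner_right_of_mem_orthogonal (v i).2 hq
    rw [inner_sub_right, sub_eq_zero] at h4
    rw [h4]; rfl
  rw [h2]
  have h5 : ‖A (f - V.starProjection f)‖ ≤ ‖A f‖ + ‖A‖ * ‖V.starProjection f‖ := by
    rw [map_sub]
    exact (norm_sub_le _ _).trans (by gcongr; exact A.le_opNorm _)
  have h6 : ‖f‖ ≤ ‖f - V.starProjection f‖ + ‖V.starProjection f‖ := by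
    simpa using norm_add_le (f - V.starProjection f) (V.starProjection f)
  have h7 : ‖f‖ ≤ (k + 1) * ‖A f‖ + (1 + (k + 1) * ‖A‖) * ‖V.starProjection f‖ := by
    have : ((k : ℝ) + 1) * ‖A (f - V.starProjection f)‖ ≤
        (k + 1) * (‖A f‖ + ‖A‖ * ‖V.starProjection f‖) := by gcongr
    linarith
  have h8 : ‖f‖ ^ 2 ≤ ((k + 1) * ‖A f‖ + (1 + (k + 1) * ‖A‖) * ‖V.starProjection f‖) ^ 2 := by
    gcongr
  nlinarith [sq_nonneg ((k + 1) * ‖A f‖ - (1 + (k + 1) * ‖A‖) * ‖V.starProjection f‖),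
    sq_nonneg ((1 + (k + 1) * ‖A‖) * ‖V.starProjection f‖)]

theorem gap_sim (T : H →L[ℂ] H)
    (h : ¬ ∃ f : ℕ → H, Orthonormal ℂ f ∧ Tendsto (fun n => adjoint T (f n)) atTop (𝓝 0))
    (S : H ≃L[ℂ] H) (M : H →L[ℂ] H) :
    ∃ (c : ℝ) (g : ℕ → H), Summable (fun n => ‖g n‖ ^ 2) ∧
      ∀ f, ‖M f‖ ^ 2 ≤ c * ‖adjoint (simOp S T) f‖ ^ 2 + ∑' n, ‖⟪g n, f⟫_ℂ‖ ^ 2 := by
  obtain ⟨c, K, g, hc, hg, hf⟩ := gap_vectors (adjoint T) h
  set S' : H →L[ℂ] H := adjoint (S : H →L[ℂ] H) with hS'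
  set Q : H →L[ℂ] H := adjoint (S.symm : H →L[ℂ] H) with hQ
  set L : ℝ := ‖M‖ * ‖Q‖ with hL
  refine dom_of _ _ S' (L ^ 2 * c * ‖S'‖ ^ 2) (L * K) g hg fun f => ?_
  have h1 : Q (S' f) = f := by
    refine ext_inner_left ℂ fun x => ?_
    rw [hQ, hS', adjoint_inner_right, adjoint_inner_right]
    simp
  have h2 : adjoint T (S' f) = S' (adjoint (simOp S T) f) := by
    refine ext_inner_left ℂ fun x => ?_
    rw [hS', adjoint_inner_right, adjoint_inner_right, adjoint_inner_right, adjoint_inner_right,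
      simOp_apply]
    simp
  have h3 : ‖M f‖ ≤ L * ‖S' f‖ := by
    refine (le_opNorm _ _).trans ?_
    rw [hL, mul_assoc]
    gcongr
    conv_lhs => rw [← h1]
    exact le_opNorm _ _
  have h4 := hf (S' f)
  have h5 : ‖adjoint T (S' f)‖ ^ 2 ≤ (‖S'‖ * ‖adjoint (simOp S T) f‖) ^ 2 := by
    rw [h2]
    gcongr
    exact le_opNorm _ _
  calc ‖M f‖ ^ 2 ≤ (L * ‖S' f‖) ^ 2 := by gcongr
    _ = L ^ 2 * ‖S' f‖ ^ 2 := by ring
    _ ≤ L ^ 2 * (c * (‖S'‖ * ‖adjoint (simOp S T) f‖) ^ 2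
          + K ^ 2 * ∑' n, ‖⟪g n, S' f⟫_ℂ‖ ^ 2) := by
        gcongr
        exact h4.trans (by gcongr)
    _ = _ := by ring

end Pool.Agent.FS.SimOrb
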