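import Pool.Agent.FS.SimOrb.A

namespace Pool.Agent.FS.SimOrb

open Filter Topology ContinuousLinearMap Pool.Agent.Lib.MP_0ee9ff_an
open scoped ENNReal InnerProductSpace

variable {H : Type*} [NormedAddCommGroup H] [InnerProductSpace ℂ H] [CompleteSpace H]

theorem not_dom (N : H →L[ℂ] H) (f : ℕ → H) (hf : Orthonormal ℂ f)
    (h1 : Summable fun n => ‖adjoint N (f n)‖ ^ 2) (h2 : ¬ Summable fun n => ‖N (f n)‖ ^ 2) :
    ¬ Dom N := by
  rintro ⟨c, g, hg, hle⟩
  apply h2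
  have h3 : Summable fun p : ℕ × ℕ => ‖⟪f p.2, g p.1⟫_ℂ‖ ^ 2 := by
    rw [summable_prod_of_nonneg (fun p => by positivity)]
    exact ⟨fun k => hf.inner_products_summable (g k), Summable.of_nonneg_of_le
      (fun k => tsum_nonneg fun n => by positivity) (fun k => hf.tsum_inner_products_le (g k)) hg⟩
  have h4 : Summable fun n => ∑' k, ‖⟪g k, f n⟫_ℂ‖ ^ 2 := by
    refine h3.prod_symm.prod.congr fun n => tsum_congr fun k => ?_
    simp only [Prod.swap_prod_mk]
    rw [norm_inner_symm]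
  exact Summable.of_nonneg_of_le (fun n => by positivity) (fun n => hle (f n))
    ((h1.mul_left c).add h4)

omit [CompleteSpace H] in
theorem exists_cut (e f : ℕ → H) (he : Orthonormal ℂ e) (hf : Orthonormal ℂ f) (m : ℕ) :
    ∃ P : H →L[ℂ] H, (∀ x, P x = ∑ n ∈ Finset.range m, ⟪f n, x⟫_ℂ • e n) ∧ ‖P‖ ≤ 1 ∧
      P ∈ compactOperator (RingHom.id ℂ) H H ∧
      ∀ n, P (f n) = (if n < m then 1 else 0 : ℂ) • e n := by
  classical
  let P : H →L[ℂ] H := ∑ n ∈ Finset.range m, toSpanSingleton ℂ (e n) ∘L innerSL ℂ (f n)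
  have p0 : ∀ x, P x = ∑ n ∈ Finset.range m, ⟪f n, x⟫_ℂ • e n := fun x => by
    simp [P]
  refine ⟨P, p0, opNorm_le_bound _ zero_le_one fun x => ?_, Submodule.sum_mem _ fun n _ => ?_,
    fun n => ?_⟩
  · rw [one_mul, p0, ← sq_le_sq₀ (norm_nonneg _) (norm_nonneg _)]
    exact (he.orthogonalFamily.norm_sum (fun n => ⟪f n, x⟫_ℂ) _).trans_le
      (hf.sum_inner_products_le x)
  · exact (isCompactOperator_of_locallyCompactSpace_dom (innerSL ℂ (f n))).clm_comp
      (toSpanSingleton ℂ (e n))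
  · rw [p0]
    simp only [orthonormal_iff_ite.1 hf, ite_smul, one_smul, zero_smul, Finset.sum_ite_eq',
      Finset.mem_range]

theorem not_summable_weights (a : ℕ → ℝ) (ha : ∀ n, 0 ≤ a n) {ε : ℝ} (hε : 0 < ε) (m : ℕ → ℕ)
    (hm : ∀ k : ℕ, (k : ℝ) * 4 ^ (k + 1) ≤ ∑ n ∈ Finset.range (m k), a n) (d : ℕ → ℝ)
    (hd : ∀ k n, n < m k → ε / 2 / 2 ^ k ≤ d n) : ¬ Summable fun n => d n ^ 2 * a n := by
  intro h
  obtain ⟨k, hk⟩ := exists_nat_gt ((∑' n, d n ^ 2 * a n) / ε ^ 2)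
  rw [div_lt_iff₀ (by positivity)] at hk
  refine hk.not_ge (le_trans ?_ (h.sum_le_tsum (Finset.range (m k)) fun n _ =>
    mul_nonneg (sq_nonneg _) (ha n)))
  calc (k : ℝ) * ε ^ 2 = (ε / 2 / 2 ^ k) ^ 2 * (k * 4 ^ (k + 1)) := by
        have h4 : (4 : ℝ) ^ (k + 1) = (2 * 2 ^ k) ^ 2 := by
          rw [← pow_succ', ← pow_mul, mul_comm, pow_mul]; norm_num
        rw [h4]
        field_simp
    _ ≤ (ε / 2 / 2 ^ k) ^ 2 * ∑ n ∈ Finset.range (m k), a n := by gcongr; exact hm k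
    _ = ∑ n ∈ Finset.range (m k), (ε / 2 / 2 ^ k) ^ 2 * a n := Finset.mul_sum _ _ _
    _ ≤ _ := by
        refine Finset.sum_le_sum fun n hn => mul_le_mul_of_nonneg_right ?_ (ha n)
        exact pow_le_pow_left₀ (by positivity) (hd k n (Finset.mem_range.1 hn)) 2

theorem compact_of_hasSum (t : ℕ → H →L[ℂ] H) (K : H →L[ℂ] H) (h : HasSum t K)
    (ht : ∀ k, t k ∈ compactOperator (RingHom.id ℂ) H H) : IsCompactOperator K :=
  isCompactOperator_of_tendsto h.tendsto_sum_nat (Eventually.of_forall fun _ =>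
    Submodule.sum_mem (compactOperator (RingHom.id ℂ) H H) fun k _ => ht k)

omit [CompleteSpace H] in
theorem hasSum_apply (t : ℕ → H →L[ℂ] H) (K : H →L[ℂ] H) (h : HasSum t K) (x : H) :
    HasSum (fun k => t k x) (K x) :=
  (ContinuousLinearMap.apply ℂ H x).hasSum h

theorem exists_shift (e f : ℕ → H) (he : Orthonormal ℂ e) (hf : Orthonormal ℂ f)
    (hef : ∀ n m, ⟪f m, e n⟫_ℂ = 0) (a : ℕ → ℝ) (ha : ∀ n, 0 ≤ a n) (hs : ¬ Summable a)
    {ε : ℝ} (hε : 0 < ε) :
    ∃ (K : H →L[ℂ] H) (d : ℕ → ℝ), IsCompactOperator K ∧ ‖K‖ ≤ ε ∧ (∀ x, K (K x) = 0) ∧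
      (∀ n, K (f n) = (d n : ℂ) • e n) ∧ (∀ x n, ⟪K x, f n⟫_ℂ = 0) ∧
      ¬ Summable fun n => d n ^ 2 * a n := by
  choose P p0 p1 p2 p3 using exists_cut e f he hf
  have hm : ∀ k : ℕ, ∃ m, (k : ℝ) * 4 ^ (k + 1) ≤ ∑ n ∈ Finset.range m, a n := fun k =>
    (((not_summable_iff_tendsto_nat_atTop_of_nonneg ha).1 hs).eventually_ge_atTop _).exists
  choose m hm using hm
  obtain ⟨c, hc⟩ : ∃ c : ℕ → ℝ, c = fun k => ε / 2 / 2 ^ k := ⟨_, rfl⟩
  have c0 : ∀ k, 0 < c k := fun k => by rw [hc]; positivity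
  have c1 : HasSum c ε := hc ▸ hasSum_geometric_two' ε
  have t1 : ∀ k, ‖(c k : ℂ) • P (m k)‖ ≤ c k := fun k => by
    rw [norm_smul, Complex.norm_real, Real.norm_of_nonneg (c0 k).le]
    exact mul_le_of_le_one_right (c0 k).le (p1 _)
  obtain ⟨K, t2⟩ : ∃ K : H →L[ℂ] H, HasSum (fun k => (c k : ℂ) • P (m k)) K :=
    Summable.of_norm_bounded c1.summable t1
  have t3 : ∀ x, HasSum (fun k => (c k : ℂ) • P (m k) x) (K x) := fun x =>
    hasSum_apply _ _ t2 x
  have t4 : ∀ x n, ⟪f n, K x⟫_ℂ = 0 := fun x n => by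
    have h := (innerSL ℂ (f n)).hasSum (t3 x)
    simp only [innerSL_apply_apply, p0, inner_smul_right, inner_sum, hef, mul_zero,
      Finset.sum_const_zero] at h
    exact h.unique hasSum_zero
  have d1 : ∀ n, Summable fun k => if n < m k then c k else 0 := fun n =>
    Summable.of_nonneg_of_le (fun k => by split_ifs; exacts [(c0 k).le, le_rfl])
      (fun k => by split_ifs; exacts [le_rfl, (c0 k).le]) c1.summable
  refine ⟨K, fun n => ∑' k, if n < m k then c k else 0,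
    compact_of_hasSum _ K t2 fun k => Submodule.smul_mem _ _ (p2 _),
    t2.norm_le_of_bounded c1 t1, fun x => ?_, fun n => ?_,
    fun x n => inner_eq_zero_symm.1 (t4 x n), not_summable_weights a ha hε m hm _ fun k n hn => ?_⟩
  · have h := t3 (K x)
    simp only [p0, t4, zero_smul, Finset.sum_const_zero, smul_zero] at h
    exact h.unique hasSum_zero
  · refine (t3 (f n)).unique ?_
    have h := (Complex.hasSum_ofReal.2 (d1 n).hasSum).smul_const (e n)
    have h6 : (fun k => (c k : ℂ) • P (m k) (f n)) =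
        fun k => (((if n < m k then c k else 0 : ℝ)) : ℂ) • e n := by
      funext k
      rw [p3, smul_smul]
      split_ifs <;> simp
    rw [h6]
    exact h
  · have h5 := (d1 n).le_tsum k fun j _ => by split_ifs; exacts [(c0 j).le, le_rfl]
    rw [if_pos hn] at h5
    exact le_trans (le_of_eq (by rw [hc])) h5

theorem exists_partner [TopologicalSpace.SeparableSpace H] (T : H →L[ℂ] H)
    (hT : ¬ ∃ (w : Set H) (b : HilbertBasis w ℂ H), Summable fun i => ‖T (b i)‖ ^ 2)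
    (f : ℕ → H) (hf : Orthonormal ℂ f) (h : Summable fun n => ‖T (f n)‖ ^ 2) :
    ∃ e : ℕ → H, Orthonormal ℂ e ∧ (∀ n m, ⟪f m, e n⟫_ℂ = 0) ∧
      ¬ Summable fun n => ‖T (e n)‖ ^ 2 := by
  obtain ⟨w, b, hw, hb⟩ := hf.toSubtypeRange.exists_hilbertBasis_extension
  have : Countable w := countable_of_orthonormal b.orthonormal
  let j : ℕ → w := fun n => ⟨f n, hw ⟨n, rfl⟩⟩
  have hj : Function.Injective j := fun m n hmn =>
    hf.linearIndependent.injective (congrArg Subtype.val hmn)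
  have hbj : ∀ n, b (j n) = f n := fun n => by rw [hb]
  have h1 : ¬ Summable fun i : ((Set.range j)ᶜ : Set w) => ‖T (b i)‖ ^ 2 := fun h1 => by
    refine hT ⟨w, b, summable_subtype_and_compl.1 ⟨?_, h1⟩⟩
    refine (Equiv.ofInjective j hj).summable_iff.1 ?_
    simpa [Function.comp_def, hbj] using h
  have : Infinite ((Set.range j)ᶜ : Set w) := by
    by_contra hc
    rw [not_infinite_iff_finite] at hc
    exact h1 Summable.of_finite
  obtain ⟨φ⟩ : Nonempty (ℕ ≃ ((Set.range j)ᶜ : Set w)) := nonempty_equiv_of_countable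
  refine ⟨fun n => b (φ n), b.orthonormal.comp _ (Subtype.val_injective.comp φ.injective),
    fun n m => ?_, fun h2 => h1 (φ.summable_iff.1 h2)⟩
  rw [← hbj]
  exact b.orthonormal.2 fun hc => (φ n).2 ⟨m, hc⟩

theorem exists_shear [TopologicalSpace.SeparableSpace H] (T : H →L[ℂ] H)
    (hT : ¬ ∃ (w : Set H) (b : HilbertBasis w ℂ H), Summable fun i => ‖T (b i)‖ ^ 2)
    (hW : ∃ f : ℕ → H, Orthonormal ℂ f ∧ Tendsto (fun n => adjoint T (f n)) atTop (𝓝 0))
    {ε : ℝ} (hε : 0 < ε) :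
    ∃ (K : H →L[ℂ] H) (S : H ≃L[ℂ] H), IsCompactOperator K ∧ ‖K‖ ≤ ε ∧ (∀ x, S x = x - K x) ∧
      ¬ Dom (simOp S T) := by
  obtain ⟨u, hu, hu0⟩ := hW
  have h0 : Tendsto (fun n => ‖adjoint T (u n)‖ ^ 2) atTop (𝓝 0) := by
    simpa using hu0.norm.pow 2
  obtain ⟨φ, hφ, hφ2⟩ := extraction_forall_of_eventually
    (P := fun n k => ‖adjoint T (u k)‖ ^ 2 < (1 / 2 : ℝ) ^ n)
    fun n => h0.eventually (gt_mem_nhds (by positivity))
  set f : ℕ → H := u ∘ φ with hfdef
  have hf : Orthonormal ℂ f := hu.comp φ hφ.injective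
  have h1 : Summable fun n => ‖adjoint T (f n)‖ ^ 2 :=
    Summable.of_nonneg_of_le (fun n => by positivity) (fun n => (hφ2 n).le) summable_geometric_two
  by_cases h2 : Summable fun n => ‖T (f n)‖ ^ 2
  swap
  · exact ⟨0, ContinuousLinearEquiv.refl ℂ H, isCompactOperator_zero, by simpa using hε.le,
      fun x => by simp, not_dom T f hf h1 h2⟩
  obtain ⟨e, he, hef, h3⟩ := exists_partner T hT f hf h2
  obtain ⟨K, d, w0, w1, w2, w3, w4, w5⟩ :=
    exists_shift e f he hf hef _ (fun n => by positivity) h3 hε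
  let S : H ≃L[ℂ] H := ContinuousLinearEquiv.equivOfInverse (1 - K) (1 + K)
    (fun x => by simp [w2]) (fun x => by simp [w2])
  have s1 : ∀ x, S x = x - K x := fun x => rfl
  have s2 : ∀ x, S.symm x = x + K x := fun x => rfl
  refine ⟨K, S, w0, w1, s1, not_dom _ f hf ?_ fun h4 => w5 ?_⟩
  · have h5 : ∀ n, adjoint (simOp S T) (f n) =
        adjoint (S.symm : H →L[ℂ] H) (adjoint T (f n)) := fun n => by
      refine ext_inner_left ℂ fun x => ?_
      rw [adjoint_inner_right, adjoint_inner_right, adjoint_inner_right, simOp_apply, s1,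
        inner_sub_left, w4, sub_zero]
      rfl
    refine Summable.of_nonneg_of_le (fun n => by positivity) (fun n => ?_)
      (h1.mul_left (‖adjoint (S.symm : H →L[ℂ] H)‖ ^ 2))
    rw [h5, ← mul_pow]
    gcongr
    exact le_opNorm _ _
  · set L : ℝ := ‖(S.symm : H →L[ℂ] H)‖ with hL
    refine Summable.of_nonneg_of_le (fun n => by positivity) (fun n => ?_)
      ((h4.mul_left (2 * L ^ 2)).add (h2.mul_left 2))
    have h5 : (d n : ℂ) • T (e n) = S.symm (simOp S T (f n)) - T (f n) := by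
      rw [simOp_apply, S.symm_apply_apply, s2, w3, map_add, map_smul, add_sub_cancel_left]
    have h6 : |d n| * ‖T (e n)‖ ≤ L * ‖simOp S T (f n)‖ + ‖T (f n)‖ := by
      have h7 := congrArg norm h5
      rw [norm_smul, Complex.norm_real, Real.norm_eq_abs] at h7
      rw [h7]
      refine (norm_sub_le _ _).trans ?_
      gcongr
      exact (S.symm : H →L[ℂ] H).le_opNorm _
    have h8 : (|d n| * ‖T (e n)‖) ^ 2 ≤ (L * ‖simOp S T (f n)‖ + ‖T (f n)‖) ^ 2 := by gcongr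
    rw [mul_pow, sq_abs] at h8
    nlinarith [sq_nonneg (L * ‖simOp S T (f n)‖ - ‖T (f n)‖)]

omit [CompleteSpace H] in
theorem near_trans (T K : H →L[ℂ] H) (S : H ≃L[ℂ] H) (U : H ≃ₗᵢ[ℂ] H) {ε : ℝ}
    (k1 : IsCompactOperator K) (k2 : ‖K‖ ≤ ε) (k3 : ∀ x, S x = x - K x) :
    ∃ S' : H ≃L[ℂ] H, (fun f => S' (T (S'.symm f))) = conjOp U (simOp S T) ∧
      IsCompactOperator (fun f => S' f - U f) ∧ ∀ f, ‖S' f - U f‖ ≤ ε * ‖f‖ := by
  have h3 : ∀ f, (S.trans U.toContinuousLinearEquiv) f - U f = U (-K f) := fun f => by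
    change U (S f) - U f = _
    rw [k3, ← map_sub, sub_sub_cancel_left]
  refine ⟨S.trans U.toContinuousLinearEquiv, rfl, ?_, fun f => ?_⟩
  · simp only [h3]
    exact k1.neg.continuous_comp U.continuous
  · rw [h3, U.norm_map, norm_neg]
    exact K.le_of_opNorm_le k2 f

end Pool.Agent.FS.SimOrb
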