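import Pool.Agent.FS.SimOrb.B

namespace Pool.Agent.FS.SimOrb

open MeasureTheory Set Filter Topology ContinuousLinearMap Pool.Agent.Lib.MP_0ee9ff_an
open scoped ENNReal InnerProductSpace

variable {X : Type*} [MeasurableSpace X] {μ : Measure X}

theorem no_gap [SigmaFinite μ] {ι : Type*} [Countable ι] (b : HilbertBasis ι ℂ (Lp ℂ 2 μ))
    (hb : ∀ᵐ x ∂μ, ∑' i, ‖b i x‖ₑ ^ 2 = ∞)
    (N : Lp ℂ 2 μ →L[ℂ] Lp ℂ 2 μ) (ν : X → X → ℂ)
    (hm : AEStronglyMeasurable (Function.uncurry ν) (μ.prod μ))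
    (hC : ∀ᵐ x ∂μ, ∫⁻ y, ‖ν x y‖ₑ ^ 2 ∂μ < ∞)
    (hN : ∀ f : Lp ℂ 2 μ, ∀ᵐ x ∂μ, N f x = ∫ y, ν x y * f y ∂μ)
    (c : ℝ) (g : ℕ → Lp ℂ 2 μ) (hg : Summable fun n => ‖g n‖ ^ 2)
    (hle : ∀ f, ‖f‖ ^ 2 ≤ c * ‖adjoint N f‖ ^ 2 + ∑' n, ‖⟪g n, f⟫_ℂ‖ ^ 2) :
    ∀ᵐ _x ∂μ, False := by
  have hm2 : AEMeasurable (Function.uncurry fun x y => ‖ν x y‖ₑ ^ 2) (μ.prod μ) :=
    hm.enorm.pow_const 2
  have hgm : ∀ n, AEMeasurable (fun y => ‖g n y‖ₑ ^ 2) μ := fun n =>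
    (Lp.aestronglyMeasurable (g n)).enorm.pow_const 2
  have hbm : ∀ i, AEMeasurable (fun y => ‖b i y‖ₑ ^ 2) μ := fun i =>
    (Lp.aestronglyMeasurable (b i)).enorm.pow_const 2
  have h1 : (fun y => ∑' i, ‖b i y‖ₑ ^ 2) ≤ᵐ[μ]
      fun y => ENNReal.ofReal |c| * ∫⁻ x, ‖ν y x‖ₑ ^ 2 ∂μ + ∑' n, ‖g n y‖ₑ ^ 2 := by
    refine ae_le_of_forall_setLIntegral_le_of_sigmaFinite₀ (AEMeasurable.tsum hbm)
      fun S hS _ => ?_
    have h2 := key b N ν hm hC hN MeasurableSet.univ hS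
    simp only [ind_univ, Measure.restrict_univ] at h2
    rw [lintegral_tsum fun i => (hbm i).restrict,
      lintegral_add_left' (hm2.lintegral_prod_right.const_mul _).restrict,
      lintegral_const_mul' _ _ ENNReal.ofReal_ne_top, ← h2,
      lintegral_tsum fun n => (hgm n).restrict]
    have h3 : ∀ f : Lp ℂ 2 μ, ‖f‖ₑ ^ 2 ≤
        ENNReal.ofReal |c| * ‖adjoint N f‖ₑ ^ 2 + ∑' n, ‖⟪g n, f⟫_ℂ‖ₑ ^ 2 := by
      intro f
      have hs : Summable fun n => ‖⟪g n, f⟫_ℂ‖ ^ 2 :=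
        Summable.of_nonneg_of_le (fun n => by positivity) (fun n => by
          rw [← mul_pow]
          exact pow_le_pow_left₀ (norm_nonneg _) (norm_inner_le_norm _ _) 2)
          (hg.mul_right (‖f‖ ^ 2))
      simp only [enorm_sq_ofReal]
      rw [← ENNReal.ofReal_tsum_of_nonneg (fun n => by positivity) hs,
        ← ENNReal.ofReal_mul (abs_nonneg _),
        ← ENNReal.ofReal_add (by positivity) (tsum_nonneg fun n => by positivity)]
      refine ENNReal.ofReal_le_ofReal ((hle f).trans ?_)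
      gcongr
      exact le_abs_self c
    simp only [← enorm_ind hS (b _)]
    refine (ENNReal.tsum_le_tsum fun j => h3 _).trans (le_of_eq ?_)
    rw [ENNReal.tsum_add, ENNReal.tsum_mul_left]
    congr 1
    · congr 1
      simp only [← parseval b]
      rw [ENNReal.tsum_comm]
      congr 1
      ext i
      congr 1
      ext j
      rw [adjoint_inner_left, ← inner_ind, ← inner_conj_symm]
      simp only [RCLike.enorm_conj]
    · rw [ENNReal.tsum_comm]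
      congr 1
      ext n
      simp only [inner_ind]
      rw [parseval, enorm_ind]
  have h4 : ∀ᵐ y ∂μ, ∑' n, ‖g n y‖ₑ ^ 2 < ∞ := by
    refine ae_lt_top' (AEMeasurable.tsum hgm) ?_
    rw [lintegral_tsum hgm]
    simp only [← enorm_sq_eq]
    simp only [enorm_sq_ofReal]
    rw [← ENNReal.ofReal_tsum_of_nonneg (fun n => by positivity) hg]
    exact ENNReal.ofReal_ne_top
  filter_upwards [h1, h4, hC, hb] with y h5 h6 h7 h8
  exact (h5.trans_lt (ENNReal.add_lt_top.2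
    ⟨ENNReal.mul_lt_top ENNReal.ofReal_lt_top h7, h6⟩)).ne h8

theorem exists_thick_basis (a b : EReal) (hab : a < b) :
    ∃ φ : HilbertBasis (ℕ × ℤ) ℂ
        (Lp ℂ 2 (volume.restrict {x : ℝ | a < (x : EReal) ∧ (x : EReal) < b})),
      ∀ᵐ x ∂(volume.restrict {x : ℝ | a < (x : EReal) ∧ (x : EReal) < b}),
        ∑' i, ‖φ i x‖ₑ ^ 2 = ∞ := by
  obtain ⟨c, d, h1, h2, h3⟩ := exists_partition a b hab
  obtain ⟨φ, hφ⟩ := exists_fourier_basis _ c d h1 h2 h3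
  have hc : ∀ᵐ x ∂(volume.restrict {x : ℝ | a < (x : EReal) ∧ (x : EReal) < b}),
      ∃ n, x ∈ Ioc (c n) (d n) := by
    rw [← h3]
    filter_upwards [ae_restrict_mem (MeasurableSet.iUnion fun n => measurableSet_Ioc)] with x hx
    exact mem_iUnion.1 hx
  refine ⟨φ, ?_⟩
  filter_upwards [hc, ae_all_iff.2 hφ] with x ⟨n, hn⟩ hx
  refine top_unique (le_trans (le_of_eq ?_) (ENNReal.tsum_comp_le_tsum_of_injective
    (f := fun k : ℤ => (n, k)) (fun k l h => (Prod.ext_iff.1 h).2) _))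
  have h4 : ∀ k : ℤ, ‖φ (n, k) x‖ₑ ^ 2 = ENNReal.ofReal (d n - c n)⁻¹ := fun k => by
    rw [enorm_sq_ofReal, hx (n, k), indicator_of_mem hn]
  simp only [h4]
  exact (ENNReal.tsum_const_eq_top_of_ne_zero
    (ENNReal.ofReal_pos.2 (inv_pos.2 (sub_pos.2 (h1 n)))).ne').symm

theorem not_ae_false (a b : EReal) (hab : a < b) :
    volume.restrict {x : ℝ | a < (x : EReal) ∧ (x : EReal) < b} ≠ 0 := by
  intro h3
  obtain ⟨c, d, k1, -, k3⟩ := exists_partition a b hab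
  rw [Measure.restrict_eq_zero, ← k3] at h3
  have h4 := measure_mono_null (Set.subset_iUnion (fun n => Set.Ioc (c n) (d n)) 0) h3
  rw [Real.volume_Ioc, ENNReal.ofReal_eq_zero] at h4
  linarith [k1 0]

end Pool.Agent.FS.SimOrb
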